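import Mathlib
import Pool.Agent.N824.C2.CurvC

/-!
# Positive scalar curvature on 4-manifolds from coarse conformal factors and metrics

Let `X` be a closed manifold of dimension 4. We consider pairs `(F, v)` of an immersion `F : X → ℝᴺ`
and a function `v : X → ℝ` such that, for the metric `g` induced by `F` (for large `N` these
are all metrics, by Nash's theorem, which is not used here), the conformal metric `e^(2v) g` has
positive scalar curvature, that is `s - 6 Δ v - 6 |dv|² > 0`, where `s` is the scalar curvature of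
`g`, `Δ` the Laplacian and the norm that of `g`. By Gauss's equation `s = |tr II|² - |II|²`, where the
second fundamental form `II` is the normal component of the second derivative of `F` in a
parametrization of `X`; the Christoffel symbols, which enter in `Δ v`, are given by the tangential
component.

The theorem characterizes when there is a smooth pair of this kind: this is
the case if and only if there are *coarse* pairs of this kind. That is, for arbitrarily small
scales `r` (all `r` in a set `S` accumulating at `0`) there are maps `f r : X → ℝᴺ × ℝ` with the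
following property. They need not be continuous, they are unrelated for different `r`, and
nothing is assumed about `f r` at scales different from `r`. Near each point `x` there is
a smooth parametrization `A` of `X`, `κ`-bi-Lipschitz for some function `d(x, y)`, such that for all
`p` near `0` the map `f r ∘ A` is, on the ball of radius `κ² r` about `p`, *in the mean* within
`δ r²` of a quadratic map with first derivative `L` and second derivative `Q` at `p`, where
`(1 + ‖L‖ + ‖Q‖) r ≤ δ τ(r)` with `τ(r) → 0`, and all `L'`, `Q'` with `‖L' - L‖` and `‖Q' - Q‖` at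
most `C κ^12 δ` are the derivatives of pairs with this property. Here `L`, `Q`, `δ` depend on `p` and
`r` in any way and `C` is any sufficiently large constant. The metrics may degenerate or blow up with
`r`, and their scalar curvatures need not be positive.

A closed simply connected symplectic 4-manifold with `3 σ = χ` is diffeomorphic to the complex
projective plane if (and only if) it has a metric of positive scalar curvature, by theorems of Liu
and of Ohta and Ono (which are not used here).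
-/

set_option autoImplicit false
set_option maxSynthPendingDepth 3

open Set Filter Topology Metric MeasureTheory Function
open scoped Manifold ContDiff InnerProductSpace

noncomputable section

namespace Pool.Agent.Results.MP_dbd540_gt.CoarseConformalPsc

/-- `ℝᵐ` -/
abbrev R (m : ℕ) := EuclideanSpace ℝ (Fin m)

/-- Lebesgue measure on `ℝᵐ` -/
def vol (m : ℕ) : Measure (R m) := volume

/-- the standard basis of `ℝᵐ` -/
def std (m : ℕ) (i : Fin m) : R m := EuclideanSpace.single i 1

/-! In the following definitions `V = ℝ⁴` is the model space of `X` and `W = ℝᴺ`; the target is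
`W × ℝ`. A symmetric bilinear map `V × V → W` is an element of `V →L[ℝ] V →L[ℝ] W`. -/

section

variable {V W : Type} [NormedAddCommGroup V] [InnerProductSpace ℝ V] [FiniteDimensional ℝ V]
  [NormedAddCommGroup W] [InnerProductSpace ℝ W] [FiniteDimensional ℝ W]

/-- the inverse of the metric `⟪L u, L v⟫` induced by `L` -/
def invMetric (L : V →L[ℝ] W) : V →L[ℝ] V :=
  ContinuousLinearMap.inverse ((ContinuousLinearMap.adjoint L).comp L)

/-- the second fundamental form of a map with the derivatives `L` and `Q`: the component of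
`Q u v` orthogonal to the image of `L` -/
def II (L : V →L[ℝ] W) (Q : V →L[ℝ] V →L[ℝ] W) (u v : V) : W :=
  Q u v - L (invMetric L (ContinuousLinearMap.adjoint L (Q u v)))

/-- the scalar curvature of the induced metric, by Gauss's equation: the square of the norm of the
trace of the second fundamental form minus the square of its norm, for the induced metric; `e` is
an orthonormal basis of `V` -/
def scalCurv {ι : Type} [Fintype ι] (e : ι → V) (L : V →L[ℝ] W)
    (Q : V →L[ℝ] V →L[ℝ] W) : ℝ :=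
  ‖∑ i, II L Q (invMetric L (e i)) (e i)‖ ^ 2 -
    ∑ i, ∑ j, ⟪II L Q (invMetric L (e i)) (invMetric L (e j)), II L Q (e i) (e j)⟫_ℝ

/-- the first component of `L` -/
def fstL (L : V →L[ℝ] W × ℝ) : V →L[ℝ] W := (ContinuousLinearMap.fst ℝ W ℝ).comp L

/-- the first component of `Q` -/
def fstQ (Q : V →L[ℝ] V →L[ℝ] W × ℝ) : V →L[ℝ] V →L[ℝ] W :=
  (ContinuousLinearMap.compL ℝ V (W × ℝ) W (ContinuousLinearMap.fst ℝ W ℝ)).comp Q

/-- the Hessian of the second component, for the metric induced by the first component: the second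
derivative minus the first derivative in the direction of the tangential component of the second
derivative of the first component -/
def hessSnd (L : V →L[ℝ] W × ℝ) (Q : V →L[ℝ] V →L[ℝ] W × ℝ) (u v : V) : ℝ :=
  (Q u v).2 - (L (invMetric (fstL L) (ContinuousLinearMap.adjoint (fstL L) (Q u v).1))).2

/-- `s - 6 Δ v - 6 |dv|²` for the second component `v` and the metric induced by the first component;
`e` is an orthonormal basis of `V` -/
def confScal {ι : Type} [Fintype ι] (e : ι → V) (L : V →L[ℝ] W × ℝ)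
    (Q : V →L[ℝ] V →L[ℝ] W × ℝ) : ℝ :=
  scalCurv e (fstL L) (fstQ Q) - 6 * ∑ i, hessSnd L Q (invMetric (fstL L) (e i)) (e i) -
    6 * ∑ i, (L (invMetric (fstL L) (e i))).2 * (L (e i)).2

/-- pairs `(F, v)` with the derivatives `L` and `Q` consist of an immersion `F` and a function `v`
such that `e^(2v) g` has positive scalar curvature, for the metric `g` induced by `F` -/
def PosConf {ι : Type} [Fintype ι] (e : ι → V) (L : V →L[ℝ] W × ℝ)
    (Q : V →L[ℝ] V →L[ℝ] W × ℝ) : Prop :=
  Injective (fstL L) ∧ 0 < confScal e L Q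

/-- `Q` is symmetric -/
def Symm (Q : V →L[ℝ] V →L[ℝ] W × ℝ) : Prop := ∀ u v, Q u v = Q v u

/-- all derivatives at distance at most `b` from `L` and `Q` satisfy `PosConf` -/
def PosMargin {ι : Type} [Fintype ι] (e : ι → V) (b : ℝ) (L : V →L[ℝ] W × ℝ)
    (Q : V →L[ℝ] V →L[ℝ] W × ℝ) : Prop :=
  ∀ (L' : V →L[ℝ] W × ℝ) (Q' : V →L[ℝ] V →L[ℝ] W × ℝ), Symm Q' → ‖L' - L‖ ≤ b →
    ‖Q' - Q‖ ≤ b → PosConf e L' Q'

/-- the quadratic map with the value `c` and the derivatives `L` and `Q` at `p` -/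
def quad (c : W × ℝ) (L : V →L[ℝ] W × ℝ) (Q : V →L[ℝ] V →L[ℝ] W × ℝ) (p s : V) : W × ℝ :=
  c + L (s - p) + (1 / 2 : ℝ) • Q (s - p) (s - p)

/-- `h` is integrable on the ball of radius `a` about `p` and its distance to a quadratic map with
the derivatives `L` and `Q` at `p` has integral at most `b` over this ball. -/
def QuadInMean [MeasurableSpace V] (μ : Measure V) (h : V → W × ℝ) (p : V) (a b : ℝ)
    (L : V →L[ℝ] W × ℝ) (Q : V →L[ℝ] V →L[ℝ] W × ℝ) : Prop :=
  IntegrableOn h (closedBall p a) μ ∧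
    ∃ c : W × ℝ, ∫ q in closedBall p a, ‖h q - quad c L Q p q‖ ∂μ ≤ b

variable {X : Type} [TopologicalSpace X] [ChartedSpace V X]

/-- smooth maps -/
def Smooth (V : Type) [NormedAddCommGroup V] [InnerProductSpace ℝ V] [ChartedSpace V X]
    (F : X → W × ℝ) : Prop := ContMDiff 𝓘(ℝ, V) 𝓘(ℝ, W × ℝ) ∞ F

/-- `A` is a smooth parametrization near `x = A 0` -/
def Param (A : V → X) (x : X) : Prop :=
  A 0 = x ∧ IsLocalDiffeomorphAt 𝓘(ℝ, V) 𝓘(ℝ, V) ∞ A 0

/-- at `x` the first component of `F` is an immersion, with induced metric `g`, and the scalar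
curvature of `e^(2v) g` is positive, where `v` is the second component of `F` -/
def PosConfAt {ι : Type} [Fintype ι] (e : ι → V) (F : X → W × ℝ) (x : X) : Prop :=
  ∃ A : V → X, Param A x ∧
    PosConf e (fderiv ℝ (fun z => F (A z)) 0) (fderiv ℝ (fderiv ℝ fun z => F (A z)) 0)

/-- `A` is `κ`-bi-Lipschitz for `d` on the ball of radius `ρ`. -/
def BiLip (d : X → X → ℝ) (A : V → X) (κ ρ : ℝ) : Prop :=
  1 ≤ κ ∧ 0 < ρ ∧ ∀ p q : V, ‖p‖ < ρ → ‖q‖ < ρ →
    d (A p) (A q) ≤ κ * ‖p - q‖ ∧ ‖p - q‖ ≤ κ * d (A p) (A q)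

/-- the maps `f r` are coarse pairs of this kind at `x`, each one at its scale `r ∈ S` -/
def CoarseAt {ι : Type} [Fintype ι] [MeasurableSpace V] (e : ι → V) (μ : Measure V)
    (C : ℝ) (d : X → X → ℝ) (S : Set ℝ) (f : ℝ → X → W × ℝ) (x : X) : Prop :=
  ∃ (A : V → X) (κ ρ : ℝ) (τ : ℝ → ℝ), Param A x ∧ BiLip d A κ ρ ∧ Tendsto τ (𝓝[>] 0) (𝓝 0) ∧
    ∀ p, ‖p‖ < ρ → ∀ r ∈ S, 0 < r → r < ρ →
      ∃ (L : V →L[ℝ] W × ℝ) (Q : V →L[ℝ] V →L[ℝ] W × ℝ) (δ : ℝ), 0 ≤ δ ∧ Symm Q ∧
        (1 + ‖L‖ + ‖Q‖) * r ≤ δ * τ r ∧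
        QuadInMean μ (fun z => f r (A z)) p (κ ^ 2 * r) (δ * r ^ 6) L Q ∧
        PosMargin e (C * κ ^ 12 * δ) L Q

end

theorem result : ∃ C₀ : ℝ, ∀ C : ℝ, C₀ ≤ C → ∀ (N : ℕ) (X : Type)
    [TopologicalSpace X] [T2Space X] [CompactSpace X] [ChartedSpace (R 4) X]
    [IsManifold 𝓘(ℝ, R 4) ∞ X],
    (∃ F : X → R N × ℝ, Smooth (R 4) F ∧ ∀ x, PosConfAt (std 4) F x) ↔
      ∃ (d : X → X → ℝ) (S : Set ℝ) (f : ℝ → X → R N × ℝ), (0 : ℝ) ∈ closure (S ∩ Ioi 0) ∧
        ∀ x, CoarseAt (std 4) (vol 4) C d S f x := by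
  obtain ⟨C₀, hC₀⟩ := Pool.Agent.N824.C2.main2c 4
  refine ⟨C₀, fun C hC N X _ _ _ _ _ => ?_⟩
  have hmain := hC₀ C hC (R N × ℝ) (Pool.Agent.N824.C2.PosConf (std 4))
    (fun L Q _ h => by
      obtain ⟨b, hb, h1⟩ := Pool.Agent.N824.C2.posConf_open (std 4) h
      exact ⟨b, hb, fun L' Q' _ h2 h3 => h1 L' Q' h2 h3⟩) X
  refine Iff.trans ?_ (hmain.trans ?_)
  · constructor
    · rintro ⟨F, h1, h2⟩
      refine ⟨F, h1, fun x => ?_⟩
      obtain ⟨A, ⟨k1, k2⟩, k3⟩ := h2 x
      exact ⟨A, k1, k2, k3⟩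
    · rintro ⟨F, h1, h2⟩
      refine ⟨F, h1, fun x => ?_⟩
      obtain ⟨A, k1, k2, k3⟩ := h2 x
      exact ⟨A, ⟨k1, k2⟩, k3⟩
  · constructor
    · rintro ⟨d, S, f, h1, h2⟩
      refine ⟨d, S, f, h1, fun x => ?_⟩
      obtain ⟨A, κ, ρ, τ, k1, k2, k3, k4, k5, k6, k7⟩ := h2 x
      refine ⟨A, κ, ρ, τ, ⟨k1, k2⟩, ⟨k3, k4, k6⟩, k5, fun p hp r hr h0 hrρ => ?_⟩
      obtain ⟨L, Q, δ, c, m1, m2, m3, ⟨m4, m5⟩, m6⟩ := k7 p hp r hr h0 hrρ
      exact ⟨L, Q, δ, m1, m2, m3, ⟨m4, c, m5⟩, m6⟩
    · rintro ⟨d, S, f, h1, h2⟩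
      refine ⟨d, S, f, h1, fun x => ?_⟩
      obtain ⟨A, κ, ρ, τ, ⟨k1, k2⟩, ⟨k3, k4, k6⟩, k5, k7⟩ := h2 x
      refine ⟨A, κ, ρ, τ, k1, k2, k3, k4, k5, k6, fun p hp r hr h0 hrρ => ?_⟩
      obtain ⟨L, Q, δ, m1, m2, m3, ⟨m4, c, m5⟩, m6⟩ := k7 p hp r hr h0 hrρ
      exact ⟨L, Q, δ, c, m1, m2, m3, ⟨m4, m5⟩, m6⟩

end Pool.Agent.Results.MP_dbd540_gt.CoarseConformalPsc
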